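import Pool.Agent.H59.L.S8.R187.CT.Base
import Pool.Agent.H59.L.T97aac3.Q40.SP.Cnt
import Pool.Agent.H59.L.T922ed1.X140.CP.Base

/-!
# Good valuations: one model is enough, composita, spanning sequences
-/

set_option autoImplicit false
set_option linter.unusedVariables false
set_option linter.unusedSectionVars false

universe u

namespace Pool.Agent.H59.RP

open IsLocalRing Pool.Agent.W418.LU2 Pool.Agent.TH188.QS Pool.Agent.H176.DT Pool.Agent.R187.CT

/-- From strong uniformization of one model to all models. -/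
theorem good_of_su {R K : Type u} [CommRing R] [Field K] (ρ : R →+* K) (V : ValuationSubring K)
    {S : Set K} (hS : S.Finite) (hSV : rg ρ S ≤ V.toSubring) (hSK : ∀ z, Fr (rg ρ S) z)
    (h : SU V (rg ρ S)) : Good ρ V := by
  refine ⟨S, hS, fun T hT hTV hST => ?_⟩
  have h1 : ∀ z, Fr (rg ρ T) z := fun z =>
    fr_closure ρ (fun a ha => Subring.subset_closure (Or.inl ha)) hST (hSK z)
  have hTV' : ∀ t ∈ T, t ∈ V := fun t ht => hTV (Subring.subset_closure (Or.inr ht))
  have hSV' : ∀ s ∈ S, s ∈ V := fun s hs => hSV (Subring.subset_closure (Or.inr hs))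
  have h2 := (p_move V (rg ρ S) ⟨hSV, hSK⟩ T hT hTV').1 h
  have h3 : Subring.closure ((rg ρ S : Set K) ∪ T) = Subring.closure ((rg ρ T : Set K) ∪ S) := by
    rw [closure_closure_union, closure_closure_union, Set.union_assoc, Set.union_assoc,
      Set.union_comm S T]
  rw [h3] at h2
  exact gp_of_su ((p_move V (rg ρ T) ⟨hTV, h1⟩ S hS hSV').2 h2)

/-- From log uniformization of one model to all models. -/
theorem good_of_one {R K : Type u} [CommRing R] [Field K] (hR : HJ R) (ρ : R →+* K)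
    (V : ValuationSubring K) {S : Set K} (hS : S.Finite) (hSV : rg ρ S ≤ V.toSubring)
    (hSK : ∀ z, Fr (rg ρ S) z) (h : LogUnif V (rg ρ S)) : Good ρ V := by
  have := noe_rg hR ρ hS
  exact good_of_su ρ V hS hSV hSK (p_base V _ ⟨hSV, hSK⟩ h)

/-- Spanning sequences. -/
theorem good_spn {R K : Type u} [CommRing R] [Field K] (hR : HJ R) (ρ : R →+* K)
    (V : ValuationSubring K) {S : Set K} (hS : S.Finite) (hSV : rg ρ S ≤ V.toSubring)
    (hSK : ∀ z, Fr (rg ρ S) z) (hreg : IsRegularLocalRing (lo V.toSubring (rg ρ S)))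
    (hinf : ∀ N, ∃ p, N ≤ p ∧ ∀ _ : IsLocalRing (qseq V (rg ρ S) p),
      PerfectField (ResidueField (qseq V (rg ρ S) p)) ∧
        Pool.Agent.Q40.SP.Spn V (qseq V (rg ρ S) p)) : Good ρ V := by
  have hnoe := noe_rg hR ρ hS
  have hIC : IC V.toSubring (qseq V (rg ρ S) 0) := by
    intro a ha ha0 haV
    exact inv_mem_lo hSV ha ha0 haV
  by_cases hF : IsField (qseq V (rg ρ S) 0)
  · have h1 : V = ⊤ := by
      refine top_unique fun z _ => ?_
      obtain ⟨a, ha, b, hb, hb0, rfl⟩ := hSK z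
      have hb' : (⟨b, le_lo _ _ hb⟩ : qseq V (rg ρ S) 0) ≠ 0 := fun h => hb0 (congrArg Subtype.val h)
      obtain ⟨c, hc⟩ := hF.mul_inv_cancel hb'
      have h2 : b * (c : K) = 1 := congrArg Subtype.val hc
      have h3 : b⁻¹ = (c : K) := inv_eq_of_mul_eq_one_right h2
      rw [h3]
      exact V.mul_mem _ _ (hSV ha) (lo_le hSV c.2)
    subst h1
    exact good_top ρ
  · obtain ⟨-, -, -, h3⟩ := Pool.Agent.Q40.SP.main (Q := qseq V (rg ρ S)) hreg hF (fun z => by
      obtain ⟨a, ha, b, hb, hb0, rfl⟩ := hSK z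
      exact ⟨a, le_lo _ _ ha, b, le_lo _ _ hb, hb0, rfl⟩) (lo_le hSV) hIC (fun _ => rfl) hinf
    obtain ⟨g, hg⟩ := Pool.Agent.Q40.RP.fg_of (V := V) (A := rg ρ S) (Q := qseq V (rg ρ S) 0)
      (T := (∅ : Set K)) Set.finite_empty (fun t ht => ht.elim) (fun t ht => ht.elim) (by
        change lo V.toSubring (rg ρ S) = _
        rw [Set.union_empty, Subring.closure_eq])
    exact good_of_one hR ρ V hS hSV hSK (h3 _ hSV hnoe 0 g hg)

/-- The invariant of a good valuation of a subfield. -/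
theorem inv_of_good {R L K : Type u} [CommRing R] [Field L] [Field K] [Algebra L K] (hR : HJ R)
    (ρ : R →+* L) (V : ValuationSubring K) (hρV : ∀ a, algebraMap L K (ρ a) ∈ V)
    (hL : ∃ S : Set L, S.Finite ∧ ∀ z, Fr (rg ρ S) z)
    (h : Good ρ (V.comap (algebraMap L K))) :
    Inv V ((algebraMap L K).comp ρ).range (algebraMap L K).fieldRange.subtype := by
  obtain ⟨T₁, hT₁f, hT₁⟩ := h
  obtain ⟨S, hSf, hSV, hSE⟩ := exists_model ρ (V.comap (algebraMap L K)) hρV hL
  have hnoe := noe_rg hR ρ hSf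
  have hGP := hT₁ S hSf hSV fun t _ => hSE t
  have hLU : LogUnif (V.comap (algebraMap L K)) (rg ρ S) := hGP.logUnif hSV
  letI := (algebraMap L K).rangeRestrictField.toAlgebra
  have hpre : algebraMap L K ⁻¹' (((algebraMap L K).comp ρ).range : Set K) =
      (ρ.range : Set L) := by
    ext z
    constructor
    · rintro ⟨a, ha⟩
      exact ⟨a, (algebraMap L K).injective ha⟩
    · rintro ⟨a, rfl⟩
      exact ⟨a, rfl⟩
  have h0 : Inv V ((algebraMap L K).comp ρ).range (algebraMap L K) := by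
    refine ⟨?_, S, hSf, ?_, ?_⟩
    · rintro _ ⟨a, rfl⟩
      exact ⟨ρ a, rfl⟩
    · rw [hpre]
      exact ⟨hSV, hSE⟩
    · rw [hpre]
      exact p_base _ _ ⟨hSV, hSE⟩ hLU
  refine Inv.step (F := L) (F' := (algebraMap L K).fieldRange) (φ := algebraMap L K) rfl h0 ?_
  intro A hM hSU
  exact key_triv A hM hSU (algebraMap L K).rangeRestrictField_bijective.2

/-- From the invariant to the models. -/
theorem good_of_inv {R K : Type u} [CommRing R] [Field K] (ρ : R →+* K) (V : ValuationSubring K)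
    (h : Inv V ρ.range (⊤ : Subfield K).subtype) : Good ρ V := by
  have h1 : Inv V ρ.range (RingHom.id K) := by
    refine Inv.step (F := (⊤ : Subfield K)) (F' := K) (φ := (⊤ : Subfield K).subtype) rfl h ?_
    intro A hM hSU
    exact key_triv A hM hSU fun z => ⟨⟨z, trivial⟩, rfl⟩
  obtain ⟨-, U, hU, hM, hSU⟩ := h1
  have hV : V.comap (RingHom.id K) = V := by
    ext z
    rfl
  have hpre : (RingHom.id K) ⁻¹' (ρ.range : Set K) = (ρ.range : Set K) := rfl
  rw [hV, hpre] at hM hSU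
  exact good_of_su ρ V hU hM.1 hM.2 hSU

/-- Composita. -/
theorem good_cpt {R k L₁ L₂ K : Type u} [CommRing R] [Field k] [Field L₁] [Field L₂] [Field K]
    [Algebra L₁ K] [Algebra L₂ K] (hR : HJ R) (σ : k →+* R) (ρ₁ : R →+* L₁) (ρ₂ : k →+* L₂)
    (hσ : (algebraMap L₂ K).comp ρ₂ = ((algebraMap L₁ K).comp ρ₁).comp σ)
    (V : ValuationSubring K) (hρV : ∀ a, algebraMap L₁ K (ρ₁ a) ∈ V)
    (hL₁ : ∃ S : Set L₁, S.Finite ∧ ∀ z, Fr (rg ρ₁ S) z)
    (hL₂ : ∃ S : Set L₂, S.Finite ∧ ∀ z, Fr (rg ρ₂ S) z)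
    (h₁ : Good ρ₁ (V.comap (algebraMap L₁ K))) (h₂ : Good ρ₂ (V.comap (algebraMap L₂ K)))
    (hLD : ∀ (n : ℕ) (a b : Fin n → K), (∀ i, a i ∈ (algebraMap L₁ K).fieldRange) →
      (∀ i, b i ∈ (algebraMap L₂ K).fieldRange) →
      (∀ c : Fin n → k, ∑ i, algebraMap L₂ K (ρ₂ (c i)) * a i = 0 → ∀ i, c i = 0) →
      ∑ i, a i * b i = 0 → ∀ i, b i = 0)
    (hTV : Pool.Agent.X140.CP.TV V (algebraMap L₁ K).fieldRange (algebraMap L₂ K).fieldRange)
    (htop : (algebraMap L₁ K).fieldRange ⊔ (algebraMap L₂ K).fieldRange = ⊤) :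
    Good ((algebraMap L₁ K).comp ρ₁) V := by
  have hk : ∀ c, algebraMap L₂ K (ρ₂ c) = algebraMap L₁ K (ρ₁ (σ c)) := fun c =>
    RingHom.congr_fun hσ c
  letI : Algebra k K := ((algebraMap L₂ K).comp ρ₂).toAlgebra
  have i1 := inv_of_good hR ρ₁ V hρV hL₁ h₁
  have i2 := inv_of_good Pool.Agent.X140.CP.hj_field ρ₂ V (fun c => by rw [hk]; exact hρV _) hL₂ h₂
  have hn : IsNoetherianRing ((algebraMap L₁ K).comp ρ₁).range := by
    have h1 := noe_rg hR ((algebraMap L₁ K).comp ρ₁) Set.finite_empty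
    rwa [show rg ((algebraMap L₁ K).comp ρ₁) ∅ = ((algebraMap L₁ K).comp ρ₁).range by
      change Subring.closure _ = _
      rw [Set.union_empty, Subring.closure_eq]] at h1
  have i3 := Pool.Agent.X140.CP.inv_comp (k := k) V (fun c => by
      change algebraMap L₂ K (ρ₂ c) ∈ V
      rw [hk]; exact hρV _) ((algebraMap L₁ K).comp ρ₁).range (fun c => ⟨σ c, (hk c).symm⟩) _ _ i1 i2
    (fun n a b ha hb hc => hLD n a b ha hb fun c hc' => hc c (by
      rw [← hc']
      refine Finset.sum_congr rfl fun i _ => ?_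
      rw [Algebra.smul_def]
      rfl)) hTV
  rw [htop] at i3
  exact good_of_inv _ V i3

end Pool.Agent.H59.RP
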