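import Pool.Agent.H59.L.T374d34.N98.RW.Q2
import Pool.Agent.H59.L.T374d34.N98.T2.Reg
import Pool.Agent.H59.RP.Good

/-!
# Two-dimensional regular local rings
-/

set_option autoImplicit false
set_option linter.unusedVariables false
set_option linter.unusedSectionVars false

universe u

namespace Pool.Agent.H59.RP

open IsLocalRing Pool.Agent.W418.LU2 Pool.Agent.H176.DT Pool.Agent.N98 Pool.Agent.TH188.QS
  Pool.Agent.R187.CT

lemma pmon_unit {F : Type u} [Field F] {P : Subring F} {ι : Type} [Fintype ι] {x : ι → F} {u : F}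
    (h0 : u ≠ 0) (h1 : u ∈ P) (h2 : u⁻¹ ∈ P) : PMon P x u :=
  ⟨u, h0, h1, h2, 0, by rw [mo_zero, mul_one]⟩

lemma val_lt {F : Type u} [Field F] {V : ValuationSubring F} {a : F} (ha : a ∈ V) :
    V.valuation a < 1 ↔ ¬ (a ≠ 0 ∧ a⁻¹ ∈ V) := by
  constructor
  · rintro h ⟨h0, h1⟩
    rw [← V.valuation_le_one_iff, map_inv₀] at h1
    have h2 : V.valuation a ≠ 0 := (Valuation.ne_zero_iff _).2 h0
    exact absurd h (not_lt.2 ((inv_le_one₀ (zero_lt_iff.2 h2)).1 h1))
  · intro h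
    by_contra hcon
    push Not at hcon
    have h0 : a ≠ 0 := by
      rintro rfl
      rw [map_zero] at hcon
      exact absurd hcon (not_le.2 zero_lt_one)
    refine h ⟨h0, ?_⟩
    rw [← V.valuation_le_one_iff, map_inv₀]
    exact inv_le_one_of_one_le₀ hcon

/-- The change of the base. -/
lemma q_lo {E : Type u} [Field E] {V : ValuationSubring E} {R P : Subring E}
    (hRV : R ≤ V.toSubring) (hP0 : lo V.toSubring R ≤ P)
    (hi : ∀ a ∈ P, V.valuation a = 1 → a⁻¹ ∈ P) {I : Type} [Fintype I] {X : I → E}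
    (hX0 : ∀ i, X i ≠ 0) {c : E}
    (h : ∃ b ∈ lo V.toSubring R, PMon P X b ∧ c * b ∈ lo V.toSubring R) :
    ∃ b ∈ R, PMon P X b ∧ c * b ∈ R := by
  obtain ⟨b, hb, hbX, hcb⟩ := h
  obtain ⟨b1, hb1, s1, hs1, hs10, hs1V, e1⟩ := hb
  obtain ⟨b2, hb2, s2, hs2, hs20, hs2V, e2⟩ := hcb
  have hu : ∀ s ∈ R, s ≠ 0 → s⁻¹ ∈ V.toSubring → PMon P X s := by
    intro s hs hs0 hsV
    have h1 : V.valuation s = 1 := by
      have h2 : V.valuation s ≤ 1 := (V.valuation_le_one_iff s).2 (hRV hs)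
      have h3 : V.valuation s⁻¹ ≤ 1 := (V.valuation_le_one_iff _).2 hsV
      rw [map_inv₀] at h3
      have h4 : V.valuation s ≠ 0 := (Valuation.ne_zero_iff _).2 hs0
      refine le_antisymm h2 ?_
      rcases inv_le_one_iff₀.1 h3 with h5 | h5
      · exact absurd (le_antisymm h5 zero_le) h4
      · exact h5
    have hsP : s ∈ P := hP0 (le_lo _ _ hs)
    exact pmon_unit hs0 hsP (hi s hsP h1)
  refine ⟨b1 * s2, R.mul_mem hb1 hs2, ?_, ?_⟩
  · have e : b1 * s2 = b * s1 * s2 := by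
      rw [e1, mul_assoc b1, inv_mul_cancel₀ hs10, mul_one]
    rw [e]
    exact (hbX.mul hX0 (hu s1 hs1 hs10 hs1V)).mul hX0 (hu s2 hs2 hs20 hs2V)
  · have e : c * (b1 * s2) = b2 * s1 := by
      have e3 : c * b1 = c * b * s1 := by
        rw [e1, mul_assoc, mul_assoc b1, inv_mul_cancel₀ hs10, mul_one]
      rw [← mul_assoc, e3, e2]
      field_simp
    rw [e]
    exact R.mul_mem hb2 hs1

lemma fr_lo {E : Type u} [Field E] (V : ValuationSubring E) (R : Subring E)
    (hfr : ∀ z : E, ∃ a ∈ R, ∃ b ∈ R, b ≠ 0 ∧ z = a * b⁻¹) :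
    IsFractionRing (lo V.toSubring R) E := by
  refine ⟨?_, ?_, ?_⟩
  · rintro ⟨y, hy⟩
    have h1 : (y : E) ≠ 0 := fun h => nonZeroDivisors.ne_zero hy (Subtype.ext h)
    exact isUnit_iff_ne_zero.2 h1
  · intro z
    obtain ⟨a, ha, b, hb, hb0, rfl⟩ := hfr z
    refine ⟨(⟨a, le_lo _ _ ha⟩, ⟨⟨b, le_lo _ _ hb⟩, ?_⟩), ?_⟩
    · rw [mem_nonZeroDivisors_iff_ne_zero]
      intro h
      exact hb0 (congrArg Subtype.val h)
    · change a * b⁻¹ * b = a
      rw [mul_assoc, inv_mul_cancel₀ hb0, mul_one]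
  · intro x y hxy
    exact ⟨1, by rw [Subtype.ext hxy]⟩

/-- Two-dimensional regular local rings. -/
theorem gp_surf {E : Type u} [Field E] (V : ValuationSubring E) (R : Subring E)
    (hM : Mod V R) (hreg : IsRegularLocalRing (lo V.toSubring R))
    (hdim : ringKrullDim (lo V.toSubring R) = 2)
    (hfin : ∀ (𝔭 : Ideal (lo V.toSubring R)) [𝔭.IsPrime], 𝔭 ≠ ⊥ →
      Module.Finite (lo V.toSubring R ⧸ 𝔭)
        (integralClosure (lo V.toSubring R ⧸ 𝔭) (FractionRing (lo V.toSubring R ⧸ 𝔭)))) :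
    GP V R := by
  classical
  obtain ⟨hRV, hfr⟩ := hM
  have hF := fr_lo V R hfr
  set L := lo V.toSubring R with hL
  have hLV : L ≤ V.toSubring := lo_le hRV
  have hinvL : ∀ a ∈ L, V.valuation a = 1 → a⁻¹ ∈ L := by
    intro a ha h1
    refine inv_mem_lo hRV ha ?_ ?_
    · rintro rfl
      rw [map_zero] at h1
      exact zero_ne_one h1
    · change a⁻¹ ∈ V
      rw [← V.valuation_le_one_iff, map_inv₀, h1, inv_one]
  have hV' : ∀ a : L, a ∈ nonunits L ↔ V.valuation (algebraMap L E a) < 1 := by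
    intro a
    rw [mem_nonunits_iff, isUnit_lo_iff hRV]
    exact (val_lt (hLV a.2)).symm
  obtain ⟨x, y, hxy⟩ := T2.par_of_regular (E := E) hdim V (fun a => hLV a.2) hV'
  have hrange : ∀ e, e ∈ (algebraMap L E).range ↔ e ∈ L := by
    intro e
    constructor
    · rintro ⟨a, rfl⟩; exact a.2
    · intro he; exact ⟨⟨e, he⟩, rfl⟩
  have hrL : (algebraMap L E).range = L := by
    ext e; exact hrange e
  rw [hrL] at hxy
  intro G₁ H₁ hGf₁ hHf₁ hG₁ hH₁
  obtain ⟨G, hGdef⟩ : ∃ G, G = G₁ ∪ (H₁ \ {0}) := ⟨_, rfl⟩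
  have hG : G.Finite := by rw [hGdef]; exact hGf₁.union (hHf₁.subset Set.sdiff_subset)
  have hG0 : ∀ g ∈ G, g ≠ 0 := by
    rw [hGdef]
    rintro z (hz | ⟨_, hz⟩)
    · exact (hG₁ z hz).1
    · exact hz
  have hGf := hG.to_subtype
  obtain ⟨n, ⟨eG⟩⟩ := Finite.exists_equiv_fin G
  obtain ⟨P, I, hI, X, hn, hPV, hPi, hP0, ⟨G', hG1, hG2⟩, hregc, hmon, hq⟩ :=
    RW.exists_mono' (k := L) hxy (fun e => (hrange e).symm) hfin
      (fun i : Fin n => ((eG.symm i : G) : E)) (fun i => hG0 _ (eG.symm i).2)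
  have hRP : R ≤ P := fun a ha => hP0 (le_lo _ _ ha)
  have hq' : ∀ c ∈ P, ∃ b ∈ R, PMon P X b ∧ c * b ∈ R := by
    intro c hc
    refine q_lo hRV hP0 hPi (X := X) hregc.ne ?_
    obtain ⟨b, hb, hcb, u, u0, u1, u2, γ, e⟩ := hq c hc
    exact ⟨b, hb, ⟨u, u0, u1, u2, γ, e⟩, hcb⟩
  -- the stage
  set T : Set E := (G' : Set E) ∪ Set.range X with hT
  have hTf : T.Finite := G'.finite_toSet.union (Set.finite_range X)
  have hTP : ∀ t ∈ T, t ∈ P := by
    rintro t (ht | ⟨i, rfl⟩)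
    · exact hG1 t ht
    · exact hregc.mem i
  have hcl : Subring.closure ((R : Set E) ∪ T) ≤ P := by
    rw [Subring.closure_le]
    rintro z (hz | hz)
    · exact hRP hz
    · exact hTP z hz
  have hPP : PP V R T = P := by
    apply le_antisymm
    · rintro z ⟨a, ha, b, hb, hb0, hbV, rfl⟩
      refine P.mul_mem (hcl ha) (hPi b (hcl hb) ?_)
      have h2 : V.valuation b ≤ 1 := (V.valuation_le_one_iff b).2 (hPV b (hcl hb))
      have h3 : V.valuation b⁻¹ ≤ 1 := (V.valuation_le_one_iff _).2 hbV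
      rw [map_inv₀] at h3
      have h4 : V.valuation b ≠ 0 := (Valuation.ne_zero_iff _).2 hb0
      refine le_antisymm h2 ?_
      rcases inv_le_one_iff₀.1 h3 with h5 | h5
      · exact absurd (le_antisymm h5 zero_le) h4
      · exact h5
    · have hclV : Subring.closure ((R : Set E) ∪ T) ≤ V.toSubring := hcl.trans fun a ha => hPV a ha
      refine hG2.trans ?_
      refine (lo_mono ?_).trans (RV.lo_lo hclV).le
      rw [Subring.closure_le]
      rintro z (hz | hz)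
      · exact lo_mono (fun a ha => Subring.subset_closure (Or.inl ha)) hz
      · exact le_lo _ _ (Subring.subset_closure (Or.inr (Or.inl hz)))
  have hregP : RegP V.toSubring P X := by
    have h1 := hregc.reg V.toSubring (T2.loc_val V) (fun a ha => hPV a ha) I id Function.injective_id
    have h2 : lo V.toSubring P = P := by
      apply le_antisymm
      · rintro z ⟨a, ha, b, hb, hb0, hbV, rfl⟩
        refine P.mul_mem ha (hPi b hb ?_)
        have h2 : V.valuation b ≤ 1 := (V.valuation_le_one_iff b).2 (hPV b hb)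
        have h3 : V.valuation b⁻¹ ≤ 1 := (V.valuation_le_one_iff _).2 hbV
        rw [map_inv₀] at h3
        have h4 : V.valuation b ≠ 0 := (Valuation.ne_zero_iff _).2 hb0
        refine le_antisymm h2 ?_
        rcases inv_le_one_iff₀.1 h3 with h5 | h5
        · exact absurd (le_antisymm h5 zero_le) h4
        · exact h5
      · exact le_lo _ _
    rw [h2] at h1
    exact h1
  have hden : ∀ s : Finset E, (∀ t ∈ s, t ∈ P) → ∃ β ∈ R, PMon P X β ∧ ∀ t ∈ s, β * t ∈ R := by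
    intro s
    induction s using Finset.induction_on with
    | empty => exact fun _ => ⟨1, R.one_mem, PMon.one, by simp⟩
    | insert a s ha ih =>
      intro hs
      obtain ⟨β, hβ, hβm, hβs⟩ := ih fun t ht => hs t (Finset.mem_insert_of_mem ht)
      obtain ⟨b, hb, hbm, hab⟩ := hq' a (hs a (Finset.mem_insert_self _ _))
      refine ⟨β * b, R.mul_mem hβ hb, hβm.mul hregc.ne hbm, fun t ht => ?_⟩
      rcases Finset.mem_insert.1 ht with rfl | ht
      · have e : β * b * t = β * (t * b) := by ring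
        rw [e]
        exact R.mul_mem hβ hab
      · have e : β * b * t = β * t * b := by ring
        rw [e]
        exact R.mul_mem (hβs t ht) hb
  obtain ⟨β, hβ, hβm, hβT⟩ := hden hTf.toFinset fun t ht => hTP t (hTf.mem_toFinset.1 ht)
  have hSt : St V R T X := by
    refine ⟨hTf, ?_, β, hβ, ?_, fun t ht => hβT t (hTf.mem_toFinset.2 ht), fun i =>
      hβT _ (hTf.mem_toFinset.2 (Or.inr ⟨i, rfl⟩))⟩
    · rw [hPP]; exact hregP
    · rw [hPP]; exact hβm
  have hGm : ∀ g ∈ G, PMon (PP V R T) X g := by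
    intro g hg
    obtain ⟨u, u0, u1, u2, γ, e⟩ := hmon (eG ⟨g, hg⟩)
    rw [Equiv.symm_apply_apply] at e
    rw [hPP]
    exact ⟨u, u0, u1, u2, γ, e⟩
  obtain ⟨T', x', -, hSt', -, -, h1, h2⟩ := p_ref V R T X hSt G hG hGm
  obtain ⟨β', hβ', hβm', hβT', -⟩ := hSt'.den
  have hβ0 : β' ≠ 0 := by
    obtain ⟨u, u0, -, -, δ, rfl⟩ := hβm'
    exact mul_ne_zero u0 (mo_ne_zero hSt'.reg.ne δ)
  refine ⟨I, inferInstance, x', PP V R T', β', hSt'.reg, ⟨hβ', hβ0, T', hSt'.fin, fun t ht =>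
    ⟨hSt'.reg.PA (le_lo _ _ (Subring.subset_closure (Or.inr ht))), by
      rw [mul_comm]
      exact hβT' t ht⟩, rfl⟩, hβm', fun z hz => h1 z (hGm z ?_), fun z hz => ?_⟩
  · rw [hGdef]; exact Or.inl hz
  · by_cases h0 : z = 0
    · rw [h0]
      exact Subring.zero_mem _
    · exact h2 z (by rw [hGdef]; exact Or.inr ⟨hz, h0⟩) (hH₁ z hz).1

/-- Two-dimensional regular local rings. -/
theorem good_surf {R K : Type u} [CommRing R] [Field K] (hR : HJ R) (ρ : R →+* K)
    (V : ValuationSubring K) {S : Set K} (hS : S.Finite) (hSV : rg ρ S ≤ V.toSubring)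
    (hSK : ∀ z, Fr (rg ρ S) z) (hreg : IsRegularLocalRing (lo V.toSubring (rg ρ S)))
    (hdim : ringKrullDim (lo V.toSubring (rg ρ S)) = 2)
    (hfin : ∀ (𝔭 : Ideal (lo V.toSubring (rg ρ S))) [𝔭.IsPrime], 𝔭 ≠ ⊥ →
      Module.Finite (lo V.toSubring (rg ρ S) ⧸ 𝔭)
        (integralClosure (lo V.toSubring (rg ρ S) ⧸ 𝔭)
          (FractionRing (lo V.toSubring (rg ρ S) ⧸ 𝔭)))) : Good ρ V := by
  have := noe_rg hR ρ hS
  exact good_of_one hR ρ V hS hSV hSK ((gp_surf V (rg ρ S) ⟨hSV, hSK⟩ hreg hdim hfin).logUnif hSV)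

end Pool.Agent.H59.RP
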